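import Mathlib
import Pool.Agent.H882R3.PoiStmt

set_option autoImplicit false

/-!
# Poisson–de Rham homology is not the cohomology of the resolution: a non-normal surface

`XRing = ℂ + 𝔪²` is the algebra of polynomials in `ℂ[x, y]` without linear terms at the origin, a
Poisson subalgebra for `{f, g} = f_x g_y - f_y g_x`. The plane `𝔸²` is a symplectic resolution of
the irreducible affine Poisson variety `X = Spec XRing`, `HP₀^{DR}(X) = XRing / {XRing, XRing}` is
one-dimensional and `H²(𝔸²) = 0`.
-/

namespace Pool.Agent.Results.MP_fc9dee_ag.NonNormalPlane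

open Pool.Agent.H882R3.PoiS

/-- `X = Spec XRing` is an irreducible affine Poisson variety, `𝔸² = Spec Plane` is smooth,
irreducible and symplectic, and `𝔸² → X` is proper, birational and Poisson: a symplectic
resolution. `HP₀^{DR}(X)` has dimension `1`, and every algebraic 2-form on `𝔸²` is exact, that is
`H²(𝔸²) = 0`. -/
theorem result :
    IsAffinePoisson XRing brX ∧ IsSymplectic Plane brP ∧ IsResolution brX brP incl ∧
      dimHP0 XRing brX = 1 ∧ TwoFormsExact Plane :=
  ⟨isAffinePoisson, isSymplectic, isResolution, dimHP0_eq, twoFormsExact⟩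

end Pool.Agent.Results.MP_fc9dee_ag.NonNormalPlane
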